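import Pool.Agent.P.MP_d2ed07_lc.All2
import Pool.Agent.P.MP_d2ed07_lc.NICE
import Pool.Agent.P.MP_d2ed07_lc.Fin0

namespace Pool.Agent.Results.MP_d2ed07_lc.CodimOneDense

open Pool.Agent.P.MP_d2ed07_lc

/-- Exponential points are Zariski dense on a free variety whose additive projection has
codimension at most one, provided that `M x` is algebraically independent whenever `y ^ M` is
algebraic over the field generated by `x`. -/
theorem result (n : ℕ) (I : Ideal (MvPolynomial (Fin n ⊕ Fin n) ℂ)) [I.IsPrime]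
    (hy : ∀ i : Fin n, (MvPolynomial.X (Sum.inr i) : MvPolynomial (Fin n ⊕ Fin n) ℂ) ∉ I)
    (hadd : ∀ m : Fin n → ℤ, m ≠ 0 → ∀ c : ℂ,
      ∑ i, (m i : Fn I) * xc I i ≠ algebraMap ℂ (Fn I) c)
    (hmul : ∀ m : Fin n → ℤ, m ≠ 0 → ∀ c : ℂ,
      ∏ i, yc I i ^ m i ≠ algebraMap ℂ (Fn I) c)
    (hdim : (n : Cardinal) ≤
      Algebra.trdeg ℂ (IntermediateField.adjoin ℂ (Set.range (xc I))) + 1)
    (hind : ∀ (k : ℕ) (M : Fin k → Fin n → ℤ), LinearIndependent ℤ M →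
      (∀ r : Fin k,
        IsAlgebraic (IntermediateField.adjoin ℂ (Set.range (xc I))) (∏ i, yc I i ^ M r i)) →
      AlgebraicIndependent ℂ (fun r : Fin k => ∑ i, (M r i : Fn I) * xc I i))
    (f : MvPolynomial (Fin n ⊕ Fin n) ℂ) (hf : f ∉ I) :
    ∃ z : Fin n → ℂ,
      (∀ g ∈ I, MvPolynomial.eval (Sum.elim z (fun i => Complex.exp (z i))) g = 0) ∧
      MvPolynomial.eval (Sum.elim z (fun i => Complex.exp (z i))) f ≠ 0 := by
  obtain ⟨x, hx, h⟩ := nice_dens a_dom a_ht1 a_dens2 (fin_hy I hy) hadd hmul hdim hind f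
    (fun h => hf ((fin_ev_zero I f).1 h))
  exact ⟨x, (fin_onV I _ _).1 hx, h⟩

end Pool.Agent.Results.MP_d2ed07_lc.CodimOneDense
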