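import Pool.Agent.P.MP_d2ed07_lc.All2
import Pool.Agent.P.MP_d2ed07_lc.NICE
import Pool.Agent.P.MP_d2ed07_lc.Fin0

namespace Pool.Agent.Results.MP_d2ed07_lc.CodimOneGeneric

open Pool.Agent.P.MP_d2ed07_lc

/-- Generic exponential points on strongly rotund varieties whose additive projection has
codimension at most one, provided that `M x` is algebraically independent whenever `y ^ M` is
algebraic over the field generated by `x`. -/
theorem result (n : ℕ) (I : Ideal (MvPolynomial (Fin n ⊕ Fin n) ℂ)) [I.IsPrime]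
    (hy : ∀ i : Fin n, (MvPolynomial.X (Sum.inr i) : MvPolynomial (Fin n ⊕ Fin n) ℂ) ∉ I)
    (hrot : ∀ (k : ℕ) (M : Fin k → Fin n → ℤ), 0 < k → LinearIndependent ℤ M →
      ∃ s : Finset (Fin k ⊕ Fin k), s.card = k + 1 ∧ AlgebraicIndependent ℂ (fun j : s =>
        Sum.elim (fun r : Fin k => ∑ i, (M r i : Fn I) * xc I i)
          (fun r : Fin k => ∏ i, yc I i ^ M r i) (j : Fin k ⊕ Fin k)))
    (hdim : (n : Cardinal) ≤
      Algebra.trdeg ℂ (IntermediateField.adjoin ℂ (Set.range (xc I))) + 1)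
    (hind : ∀ (k : ℕ) (M : Fin k → Fin n → ℤ), LinearIndependent ℤ M →
      (∀ r : Fin k,
        IsAlgebraic (IntermediateField.adjoin ℂ (Set.range (xc I))) (∏ i, yc I i ^ M r i)) →
      AlgebraicIndependent ℂ (fun r : Fin k => ∑ i, (M r i : Fn I) * xc I i))
    (K : Subfield ℂ) (hK : ∃ s : Finset ℂ, K = Subfield.closure (s : Set ℂ))
    (hI : I = Ideal.span
      {f : MvPolynomial (Fin n ⊕ Fin n) ℂ | f ∈ I ∧ ∀ mo, f.coeff mo ∈ K}) :
    ∃ z : Fin n → ℂ,
      (∀ f ∈ I, MvPolynomial.eval (Sum.elim z (fun i => Complex.exp (z i))) f = 0) ∧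
      Algebra.trdeg K
          (IntermediateField.adjoin K (Set.range z ∪ Set.range (fun i => Complex.exp (z i))))
        = Algebra.trdeg ℂ (Fn I) := by
  have hrot' : SRot (xc I) (yc I) := hrot
  refine fin_generic I a_sec a_td hy hrot' (fun f hf => ?_) K hK hI
  obtain ⟨x, hx, h⟩ := nice_dens a_dom a_ht1 a_dens2 (fin_hy I hy) hrot'.free hrot'.mfree hdim
    hind f (fun h => hf ((fin_ev_zero I f).1 h))
  exact ⟨x, (fin_onV I _ _).1 hx, h⟩

end Pool.Agent.Results.MP_d2ed07_lc.CodimOneGeneric
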