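import Pool.Agent.P.MP_d2ed07_lc.All2
import Pool.Agent.P.MP_d2ed07_lc.Fin0

namespace Pool.Agent.Results.MP_d2ed07_lc.ThreeVar

open Pool.Agent.P.MP_d2ed07_lc

/-- Exponential closedness for `n = 3`: every free and rotund subvariety of `ℂ^3 × (ℂˣ)^3`
contains an exponential point. -/
theorem result (I : Ideal (MvPolynomial (Fin 3 ⊕ Fin 3) ℂ)) [I.IsPrime]
    (hy : ∀ i : Fin 3, (MvPolynomial.X (Sum.inr i) : MvPolynomial (Fin 3 ⊕ Fin 3) ℂ) ∉ I)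
    (hadd : ∀ m : Fin 3 → ℤ, m ≠ 0 → ∀ c : ℂ,
      ∑ i, (m i : Fn I) * xc I i ≠ algebraMap ℂ (Fn I) c)
    (hmul : ∀ m : Fin 3 → ℤ, m ≠ 0 → ∀ c : ℂ,
      ∏ i, yc I i ^ m i ≠ algebraMap ℂ (Fn I) c)
    (hrot : ∀ (k : ℕ) (M : Fin k → Fin 3 → ℤ), LinearIndependent ℤ M →
      ∃ s : Finset (Fin k ⊕ Fin k), s.card = k ∧ AlgebraicIndependent ℂ (fun j : s =>
        Sum.elim (fun r : Fin k => ∑ i, (M r i : Fn I) * xc I i)
          (fun r : Fin k => ∏ i, yc I i ^ M r i) (j : Fin k ⊕ Fin k))) :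
    ∃ z : Fin 3 → ℂ,
      ∀ f ∈ I, MvPolynomial.eval (Sum.elim z (fun i => Complex.exp (z i))) f = 0 := by
  obtain ⟨x, hx⟩ := a_ec3 _ (xc I) (yc I) (fin_hy I hy) hadd hmul hrot
  exact ⟨x, (fin_onV I _ _).1 hx⟩

end Pool.Agent.Results.MP_d2ed07_lc.ThreeVar
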